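import Mathlib
import Pool.Agent.JKS.Fin

/-!
Perfect matchings without odd cuts (Jackson's question on 5-regular graphs), with a given edge.

Multigraphs are given by `Pool.Agent.JKS.MG V E` (vertex type V, edge type E, two ends of each edge,
no loops); `cut X` is the edge cut of X, `deg v` the degree of v, `IsPM M` says that the edge set M is
a perfect matching, `IsMatching N` that N is a matching and `Cov N v` that N covers v.
-/

namespace Pool.Agent.Results.MP_ace318_co.GivenEdge

open Pool.Agent.JKS

/-- 4-edge-connected 5-regular multigraphs, any matching missing exactly two vertices -/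
theorem result (V E : Type) [Fintype V] [Fintype E] (G : MG V E) (h5 : ∀ v, G.deg v = 5)
    (h4 : ∀ X : Finset V, X.Nonempty → X ≠ Finset.univ → 4 ≤ (G.cut X).card)
    (N : Finset E) (hN : G.IsMatching N) (s t : V) (hst : s ≠ t)
    (hcov : ∀ v, G.Cov N v ↔ v ≠ s ∧ v ≠ t) (e : E) (he : G.Inc e t) :
    ∃ M : Finset E, G.IsPM M ∧ e ∈ M ∧
      ∀ X : Finset V, Odd X.card → G.cut X ⊆ M → ∃ f ∈ N, f ∈ G.cut X := by
  classical
  obtain ⟨M, hM, heM, h⟩ := jackson_off G h5 h4 N hN s t hst hcov e he
  refine ⟨M, hM, heM, fun X hX hc => ?_⟩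
  obtain ⟨f, hf⟩ := h X hX hc
  rw [Finset.mem_inter] at hf
  exact ⟨f, hf.2, hf.1⟩

end Pool.Agent.Results.MP_ace318_co.GivenEdge
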