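import Mathlib
import Pool.Agent.JKS.Fin

/-!
Perfect matchings and edge cuts: the anchored lemma behind Jackson's question on 5-regular graphs.

Multigraphs are given by `Pool.Agent.JKS.MG V E` (vertex type V, edge type E, two ends of each edge,
no loops); `cut X` is the edge cut of X, `deg v` the degree of v, `IsPM M` says that the edge set M is
a perfect matching, `IsMatching N` that N is a matching and `Cov N v` that N covers v.
-/

namespace Pool.Agent.Results.MP_ace318_co.NearPerfectMatchings

open Pool.Agent.JKS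

/-- r-regular multigraphs whose odd cuts have at least r edges -/
theorem result (V E : Type) [Fintype V] [Fintype E] (G : MG V E) (r : ℕ) (hr : 2 ≤ r)
    (hdeg : ∀ v, G.deg v = r) (hodd : ∀ X : Finset V, Odd X.card → r ≤ (G.cut X).card)
    (N : Finset E) (hN : G.IsMatching N) (t : V) (ht : ¬ G.Cov N t) (e : E) (he : G.Inc e t) :
    ∃ M : Finset E, G.IsPM M ∧ e ∈ M ∧
      ∀ X : Finset V, t ∈ X → G.cut X ⊆ M → Disjoint (G.cut X) N →
        ∃ u ∈ X, u ≠ t ∧ ¬ G.Cov N u := by
  classical
  obtain ⟨M, hM, heM, h⟩ := anchored G r hr hdeg hodd N hN t ht e he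
  refine ⟨M, hM, heM, fun X htX hX hd => h X htX (fun f hf => ⟨hX hf, ?_⟩)⟩
  exact fun hfN => (Finset.disjoint_left.mp hd hf hfN)

end Pool.Agent.Results.MP_ace318_co.NearPerfectMatchings
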