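import Mathlib
import Pool.Agent.JKS.SwiCor

/-!
Perfect matchings without odd cuts (Jackson's question on 5-regular graphs): graphs with a matching of
edges in cycles of length at most 4 that misses at most two vertices.

Multigraphs are given by `Pool.Agent.JKS.MG V E` (vertex type V, edge type E, two ends of each edge,
no loops); `cut X` is the edge cut of X, `deg v` the degree of v, `IsPM M` says that the edge set M is
a perfect matching, `IsMatching N` that N is a matching, `Cov N v` that N covers v, and `ShortFour e`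
that the edge e lies in a cycle of length 2, 3 or 4.
-/

namespace Pool.Agent.Results.MP_ace318_co.ShortCycles

open Pool.Agent.JKS

theorem result :
    -- (1) 4-edge-connected 5-regular multigraphs, any matching missing at most two vertices
    (∀ (V E : Type) [Fintype V] [Fintype E] (G : MG V E), (∀ v, G.deg v = 5) →
      (∀ X : Finset V, X.Nonempty → X ≠ Finset.univ → 4 ≤ (G.cut X).card) →
      ∀ N : Finset E, G.IsMatching N → {v : V | ¬ G.Cov N v}.ncard ≤ 2 →
      ∃ M : Finset E, G.IsPM M ∧ ∀ X : Finset V, Odd X.card → G.cut X ⊆ M →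
        (∃ f ∈ N, f ∈ G.cut X) ∧ ∀ f ∈ G.cut X, ¬ G.ShortFour f) ∧
    -- (2) Jackson's question if such a matching consists of edges in cycles of length at most 4
    (∀ (V E : Type) [Fintype V] [Fintype E] (G : MG V E), (∀ v, G.deg v = 5) →
      (∀ X : Finset V, X.Nonempty → X ≠ Finset.univ → 4 ≤ (G.cut X).card) →
      ∀ N : Finset E, G.IsMatching N → (∀ e ∈ N, G.ShortFour e) →
      {v : V | ¬ G.Cov N v}.ncard ≤ 2 →
      ∃ M : Finset E, G.IsPM M ∧ ∀ X : Finset V, Odd X.card → ¬ G.cut X ⊆ M) := by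
  classical
  have two : ∀ (V E : Type) [Fintype V] [Fintype E] (G : MG V E), (∀ v, G.deg v = 5) →
      (∀ X : Finset V, X.Nonempty → X ≠ Finset.univ → 4 ≤ (G.cut X).card) →
      ∀ N : Finset E, G.IsMatching N → {v : V | ¬ G.Cov N v}.ncard ≤ 2 →
      ∃ M : Finset E, G.IsPM M ∧ ∀ X : Finset V, Odd X.card → G.cut X ⊆ M →
        (∃ f ∈ N, f ∈ G.cut X) ∧ ∀ f ∈ G.cut X, ¬ G.ShortFour f := by
    intro V E _ _ G h5 h4 N hN hU
    refine SwiCor_two G h5 h4 N hN ?_
    have : {v : V | ¬ G.Cov N v} = ↑(Finset.univ.filter (fun v => ¬ G.Cov N v)) := by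
      ext v; simp
    rw [this, Set.ncard_coe_finset] at hU
    exact hU
  refine ⟨two, ?_⟩
  intro V E _ _ G h5 h4 N hN hsh hU
  obtain ⟨M, hM, hb⟩ := two V E G h5 h4 N hN hU
  refine ⟨M, hM, fun X hX hc => ?_⟩
  obtain ⟨⟨f, hfN, hf⟩, h2⟩ := hb X hX hc
  exact h2 f hf (hsh f hfN)

end Pool.Agent.Results.MP_ace318_co.ShortCycles
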