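import Mathlib
import Pool.Agent.JKS.SwiCor

/-!
Perfect matchings without odd cuts (Jackson's question on 5-regular graphs): switching a perfect
matching along cycles of length at most 4.

Multigraphs are given by `Pool.Agent.JKS.MG V E` (vertex type V, edge type E, two ends of each edge,
no loops); `cut X` is the edge cut of X, `deg v` the degree of v, `IsPM M` says that the edge set M is
a perfect matching, and `ShortFour e` that the edge e lies in a cycle of length 2, 3 or 4.
-/

namespace Pool.Agent.Results.MP_ace318_co.SwitchedMatching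

open Pool.Agent.JKS

theorem result :
    -- (1) multigraphs with all degrees odd: improving a perfect matching
    (∀ (V E : Type) [Fintype V] [Fintype E] (G : MG V E), (∀ v, Odd (G.deg v)) →
      ∀ M₀ : Finset E, G.IsPM M₀ → ∃ M : Finset E, G.IsPM M ∧
        ∀ X : Finset V, G.cut X ⊆ M → G.cut X ⊆ M₀ ∧ ∀ e ∈ G.cut X, ¬ G.ShortFour e) ∧
    -- (2) Jackson's question if every odd cut contains an edge in a cycle of length at most 4
    (∀ (V E : Type) [Fintype V] [Fintype E] (G : MG V E), (∀ v, G.deg v = 5) →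
      (∀ X : Finset V, X.Nonempty → X ≠ Finset.univ → 4 ≤ (G.cut X).card) →
      (∀ X : Finset V, Odd X.card → ∃ e ∈ G.cut X, G.ShortFour e) →
      ∃ M : Finset E, G.IsPM M ∧ ∀ X : Finset V, Odd X.card → ¬ G.cut X ⊆ M) ∧
    -- (3) connected, all degrees odd, every edge in a cycle of length at most 4: G - M connected
    (∀ (V E : Type) [Fintype V] [Fintype E] (G : MG V E), (∀ v, Odd (G.deg v)) →
      (∀ X : Finset V, X.Nonempty → X ≠ Finset.univ → (G.cut X).Nonempty) →
      (∀ e, G.ShortFour e) → (∃ M₀ : Finset E, G.IsPM M₀) →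
      ∃ M : Finset E, G.IsPM M ∧
        ∀ X : Finset V, X.Nonempty → X ≠ Finset.univ → ¬ G.cut X ⊆ M) := by
  classical
  refine ⟨?_, ?_, ?_⟩
  · intro V E _ _ G hdeg M₀ hM₀
    obtain ⟨M, hM, _, hb⟩ := Swi_best G hdeg M₀ hM₀
    exact ⟨M, hM, hb⟩
  · intro V E _ _ G h5 h4 hsh
    have hdeg : ∀ v, Odd (G.deg v) := fun v => by rw [h5]; decide
    rcases isEmpty_or_nonempty E with hE | ⟨⟨e0⟩⟩
    · have hV : IsEmpty V := by
        by_contra hne
        rw [not_isEmpty_iff] at hne
        obtain ⟨v⟩ := hne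
        have : G.deg v = 0 := by
          unfold MG.deg
          rw [Finset.card_eq_zero, Finset.filter_eq_empty_iff]
          intro e; exact (hE.false e).elim
        rw [h5] at this
        omega
      refine ⟨∅, fun v => (hV.false v).elim, fun X hX => ?_⟩
      have : X = ∅ := by ext v; exact (hV.false v).elim
      rw [this] at hX
      simp at hX
    obtain ⟨M₀, hM₀, _⟩ := pm_through G 5 (by norm_num) h5
      (fun X hX => odd_cut_five G h5 h4 X hX) e0
    obtain ⟨M, hM, _, hb⟩ := Swi_best G hdeg M₀ hM₀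
    refine ⟨M, hM, fun X hX hc => ?_⟩
    obtain ⟨e, he, hs⟩ := hsh X hX
    exact (hb X hc).2 e he hs
  · rintro V E _ _ G hdeg hcon hsh ⟨M₀, hM₀⟩
    obtain ⟨M, hM, _, hb⟩ := Swi_best G hdeg M₀ hM₀
    refine ⟨M, hM, fun X hX hX' hc => ?_⟩
    obtain ⟨e, he⟩ := hcon X hX hX'
    exact (hb X hc).2 e he (hsh e)

end Pool.Agent.Results.MP_ace318_co.SwitchedMatching
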